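import Pool.Agent.W838.WeakJoin

set_option autoImplicit false

/-!
Bruhat order: lifting, exits, and the description of the left reflection set of a join.
-/

namespace Pool.Agent.W838.Cox

open CoxeterSystem

variable {B : Type*} {M : CoxeterMatrix B} {W : Type*} [Group W] (cs : CoxeterSystem M W)


/-- Bruhat edge. -/
def E (x y : W) : Prop := ∃ t, cs.IsReflection t ∧ y = t * x ∧ cs.length x < cs.length y

/-- Bruhat order. -/
def Br (x y : W) : Prop := Relation.ReflTransGen (E cs) x y

lemma Br_le {x y : W} (h : Br cs x y) : cs.length x ≤ cs.length y := by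
  induction h with
  | refl => exact le_rfl
  | tail _ h ih => obtain ⟨t, _, _, h⟩ := h; omega

lemma Br_eq {x y : W} (h : Br cs x y) (hl : cs.length y ≤ cs.length x) : x = y := by
  induction h with
  | refl => rfl
  | tail hb h ih =>
    obtain ⟨t, _, _, h⟩ := h
    have := Br_le cs hb
    omega

lemma refl_conj_simple (i : B) {t : W} (ht : cs.IsReflection t) :
    cs.IsReflection (cs.simple i * t * cs.simple i) := by
  have := ht.conj (cs.simple i)
  rwa [cs.inv_simple] at this

/-- Edges are transported by left multiplication with a simple reflection. -/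
lemma E_simple (i : B) {x y : W} (h : E cs x y) :
    y = cs.simple i * x ∨ E cs (cs.simple i * x) (cs.simple i * y) := by
  obtain ⟨t, ht, rfl, hl⟩ := h
  by_cases hti : t = cs.simple i
  · left; rw [hti]
  · right
    refine ⟨cs.simple i * t * cs.simple i, refl_conj_simple cs i ht, ?_, ?_⟩
    · rw [mul_assoc _ (cs.simple i), cs.simple_mul_simple_cancel_left, mul_assoc]
    · have h1 := inv_conj_simple cs (x := x) ht hti
      have h2 : ¬ cs.length (cs.simple i * t * cs.simple i * (cs.simple i * x)) <
          cs.length (cs.simple i * x) := by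
        rw [h1]; omega
      have h3 := (refl_conj_simple cs i ht).length_mul_right_ne (cs.simple i * x)
      have e : cs.simple i * t * cs.simple i * (cs.simple i * x) = cs.simple i * (t * x) := by
        rw [mul_assoc _ (cs.simple i), cs.simple_mul_simple_cancel_left, mul_assoc]
      rw [e] at h2 h3
      omega

lemma E_self_simple_up {i : B} {x : W} (h : ¬ cs.length (cs.simple i * x) < cs.length x) :
    E cs x (cs.simple i * x) := by
  refine ⟨cs.simple i, cs.isReflection_simple i, rfl, ?_⟩
  have := cs.length_simple_mul x i
  omega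

lemma E_self_simple_down {i : B} {x : W} (h : cs.length (cs.simple i * x) < cs.length x) :
    E cs (cs.simple i * x) x := by
  refine ⟨cs.simple i, cs.isReflection_simple i, ?_, h⟩
  rw [cs.simple_mul_simple_cancel_left]

open Classical in
/-- the larger of `x`, `s x` -/
noncomputable def up (i : B) (x : W) : W := if cs.length (cs.simple i * x) < cs.length x then x else cs.simple i * x

open Classical in
/-- the smaller of `x`, `s x` -/
noncomputable def dn (i : B) (x : W) : W := if cs.length (cs.simple i * x) < cs.length x then cs.simple i * x else x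

lemma le_up (i : B) (x : W) : Br cs x (up cs i x) := by
  unfold up
  split_ifs with h
  · exact Relation.ReflTransGen.refl
  · exact Relation.ReflTransGen.single (E_self_simple_up cs h)

lemma simple_le_up (i : B) (x : W) : Br cs (cs.simple i * x) (up cs i x) := by
  unfold up
  split_ifs with h
  · exact Relation.ReflTransGen.single (E_self_simple_down cs h)
  · exact Relation.ReflTransGen.refl

lemma dn_le (i : B) (x : W) : Br cs (dn cs i x) x := by
  unfold dn
  split_ifs with h
  · exact Relation.ReflTransGen.single (E_self_simple_down cs h)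
  · exact Relation.ReflTransGen.refl

lemma dn_le_simple (i : B) (x : W) : Br cs (dn cs i x) (cs.simple i * x) := by
  unfold dn
  split_ifs with h
  · exact Relation.ReflTransGen.refl
  · exact Relation.ReflTransGen.single (E_self_simple_up cs h)

lemma simple_mul_le_up {i : B} {x y : W} (h : Br cs x y) :
    Br cs (cs.simple i * x) (up cs i y) := by
  induction h using Relation.ReflTransGen.head_induction_on with
  | refl => exact simple_le_up cs i y
  | head hxz hzy ih =>
    rcases E_simple cs i hxz with h | h
    · rw [← h]
      exact Relation.ReflTransGen.trans hzy (le_up cs i y)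
    · exact Relation.ReflTransGen.head h ih

lemma dn_mono {i : B} {x y : W} (h : Br cs x y) : Br cs (dn cs i x) (dn cs i y) := by
  induction h with
  | refl => exact Relation.ReflTransGen.refl
  | @tail y z hxy hyz ih =>
    refine Relation.ReflTransGen.trans ih ?_
    rcases E_simple cs i hyz with h | h
    · -- z = s y
      have hl : cs.length y < cs.length z := by obtain ⟨_, _, _, h⟩ := hyz; exact h
      have e : cs.simple i * z = y := by rw [h, cs.simple_mul_simple_cancel_left]
      have e1 : dn cs i z = y := by unfold dn; rw [if_pos (by rw [e]; exact hl), e]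
      have e2 : dn cs i y = y := by unfold dn; rw [if_neg (by rw [← h]; omega)]
      rw [e1, e2]
    · by_cases hz : cs.length (cs.simple i * z) < cs.length z
      · have e1 : dn cs i z = cs.simple i * z := by unfold dn; rw [if_pos hz]
        rw [e1]
        exact Relation.ReflTransGen.trans (dn_le_simple cs i y) (Relation.ReflTransGen.single h)
      · have e1 : dn cs i z = z := by unfold dn; rw [if_neg hz]
        rw [e1]
        exact Relation.ReflTransGen.trans (dn_le cs i y) (Relation.ReflTransGen.single hyz)

/-- lifting, case 1 -/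
lemma lift1 {i : B} {x y : W} (h : Br cs x y) (hx : cs.length (cs.simple i * x) < cs.length x)
    (hy : cs.length (cs.simple i * y) < cs.length y) : Br cs (cs.simple i * x) (cs.simple i * y) := by
  have := dn_mono cs (i := i) h
  unfold dn at this
  rwa [if_pos hx, if_pos hy] at this

/-- lifting, case 2 -/
lemma lift2 {i : B} {x y : W} (h : Br cs x y) (hy : cs.length (cs.simple i * y) < cs.length y) :
    Br cs (cs.simple i * x) y := by
  have := simple_mul_le_up cs (i := i) h
  unfold up at this
  rwa [if_pos hy] at this

/-- lifting, case 3 -/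
lemma lift3 {i : B} {x y : W} (h : Br cs x y) (hy : ¬ cs.length (cs.simple i * y) < cs.length y) :
    Br cs (cs.simple i * x) (cs.simple i * y) := by
  have := simple_mul_le_up cs (i := i) h
  unfold up at this
  rwa [if_neg hy] at this

/-- Exits: if `w ≤ g`, `w ≤ h`, `w s ≤ g`, `w s ≰ h` in right weak order and `h ≤ g` in Bruhat
order, then for `r = w s w⁻¹` we have `h < r h ≤ g`. -/
theorem exit_step (n : ℕ) : ∀ (g h w : W) (s : B), cs.length w = n → cs.length (w * cs.simple s) = cs.length w + 1 →
    R cs (w * cs.simple s) g → R cs w h → ¬ R cs (w * cs.simple s) h → Br cs h g →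
    cs.length h < cs.length (w * cs.simple s * w⁻¹ * h) ∧ Br cs (w * cs.simple s * w⁻¹ * h) g := by
  induction n with
  | zero =>
    intro g h w s hn _ hg _ hh hb
    have hw : w = 1 := cs.length_eq_zero_iff.mp hn
    rw [hw] at hg hh ⊢
    rw [one_mul] at hg hh
    rw [one_mul, inv_one, mul_one]
    have h1 := lt_of_R_simple cs hg
    have h2 : ¬ cs.length (cs.simple s * h) < cs.length h := fun hc => hh (R_simple cs hc)
    refine ⟨?_, lift2 cs hb h1⟩
    have := cs.length_simple_mul h s
    omega
  | succ n ih =>
    intro g h w s hn hws hg hwh hh hb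
    have hw1 : w ≠ 1 := by
      intro h1
      rw [h1, cs.length_one] at hn
      omega
    obtain ⟨i, hi⟩ := cs.exists_leftDescent_of_ne_one hw1
    have hi' : cs.length (cs.simple i * w) < cs.length w := hi
    have hwk : R cs w (w * cs.simple s) := by
      unfold R
      have e : w⁻¹ * (w * cs.simple s) = cs.simple s := by group
      rw [e, cs.length_simple]; omega
    have hik := inv_mono cs hwk hi'
    have hig := inv_mono cs hg hik
    have hih := inv_mono cs hwh hi'
    set r := w * cs.simple s * w⁻¹ with hrdef
    have hr : cs.IsReflection r := ⟨w, s, rfl⟩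
    have hrw : ¬ cs.length (r * w) < cs.length w := by
      have e : r * w = w * cs.simple s := by rw [hrdef]; group
      rw [e]; omega
    have hne : r ≠ cs.simple i := by
      intro heq
      rw [heq] at hrw
      exact hrw hi'
    have l1 := cs.length_simple_mul w i
    have l2 := cs.length_simple_mul (w * cs.simple s) i
    have e0 : cs.simple i * w * cs.simple s = cs.simple i * (w * cs.simple s) := by
      rw [mul_assoc]
    have key := ih (cs.simple i * g) (cs.simple i * h) (cs.simple i * w) s (by omega)
      (by rw [e0]; omega)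
      (by rw [e0]; exact (R_strip cs hik hig).mpr hg)
      ((R_strip cs hi' hih).mpr hwh)
      (by rw [e0]; exact fun hc => hh ((R_strip cs hik hih).mp hc))
      (lift1 cs hb hih hig)
    have e : cs.simple i * w * cs.simple s * (cs.simple i * w)⁻¹ =
        cs.simple i * r * cs.simple i := by
      rw [hrdef, mul_inv_rev, cs.inv_simple]; simp only [mul_assoc]
    rw [e] at key
    have e2 : cs.simple i * r * cs.simple i * (cs.simple i * h) = cs.simple i * (r * h) := by
      rw [mul_assoc _ (cs.simple i), cs.simple_mul_simple_cancel_left, mul_assoc]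
    constructor
    · have h1 : ¬ cs.length (cs.simple i * r * cs.simple i * (cs.simple i * h)) <
          cs.length (cs.simple i * h) := by
        have := key.1
        omega
      rw [inv_conj_simple cs hr hne] at h1
      have := hr.length_mul_right_ne h
      omega
    · have h2 := key.2
      rw [e2] at h2
      have h3 : ¬ cs.length (cs.simple i * (cs.simple i * g)) < cs.length (cs.simple i * g) := by
        rw [cs.simple_mul_simple_cancel_left]; omega
      have h4 := lift3 cs h2 h3
      rwa [cs.simple_mul_simple_cancel_left, cs.simple_mul_simple_cancel_left] at h4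

/-- One step up from `h` towards `g`, avoiding the labels in `N(p) ∩ N(q)`. -/
theorem good_step (g p q : W) (hp : R cs p g) (hq : R cs q g)
    (hpq : ∀ i, ¬ (cs.length (cs.simple i * p) < cs.length p ∧ cs.length (cs.simple i * q) < cs.length q))
    (h : W) (hb : Br cs h g) (hne : h ≠ g) :
    ∃ r, cs.IsReflection r ∧ cs.length (r * g) < cs.length g ∧ ¬ (cs.length (r * p) < cs.length p ∧ cs.length (r * q) < cs.length q) ∧
      cs.length h < cs.length (r * h) ∧ Br cs (r * h) g := by
  classical
  have hgh : ¬ R cs g h := by
    intro hc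
    exact hne (Br_eq cs hb (R_le cs hc))
  have hex : ∃ n, ∃ k, cs.length k = n ∧ R cs k g ∧ ¬ R cs k h := ⟨_, g, rfl, R_refl cs g, hgh⟩
  obtain ⟨k, hkn, hkg, hkh⟩ := Nat.find_spec hex
  have hmin : ∀ y, R cs y g → cs.length y < cs.length k → R cs y h := by
    intro y hy hl
    by_contra hc
    rw [hkn] at hl
    exact Nat.find_min hex hl ⟨y, rfl, hy, hc⟩
  have hk1 : k ≠ 1 := by
    intro h1
    rw [h1] at hkh
    exact hkh (R_one cs h)
  obtain ⟨s, hs⟩ := cs.exists_rightDescent_of_ne_one hk1
  have hs' : cs.length (k * cs.simple s) < cs.length k := hs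
  have l1 := cs.length_mul_simple k s
  set w := k * cs.simple s with hw
  have hkw : k = w * cs.simple s := by rw [hw, cs.simple_mul_simple_cancel_right]
  have hwk : R cs w k := by
    unfold R
    have e : w⁻¹ * k = cs.simple s := by rw [hkw]; group
    rw [e, cs.length_simple]; omega
  have hwh : R cs w h := hmin w (R_trans cs hwk hkg) hs'
  have hstep := exit_step cs (cs.length w) g h w s rfl (by rw [← hkw]; omega) (by rw [← hkw]; exact hkg)
    hwh (by rw [← hkw]; exact hkh) hb
  have hrk : cs.length (w * cs.simple s * w⁻¹ * k) < cs.length k := by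
    have e : w * cs.simple s * w⁻¹ * k = w := by
      rw [hkw]
      calc w * cs.simple s * w⁻¹ * (w * cs.simple s)
          = w * (cs.simple s * cs.simple s) := by group
        _ = w := by rw [cs.simple_mul_simple_self, mul_one]
    rw [e]; omega
  refine ⟨w * cs.simple s * w⁻¹, ⟨w, s, rfl⟩, inv_mono cs hkg hrk, ?_, hstep.1, hstep.2⟩
  rintro ⟨h1, h2⟩
  have hk_p := unique_exit cs (cs.length k) g h k w s rfl hkw (by omega) hkg hkh hmin p hp h1
  have hk_q := unique_exit cs (cs.length k) g h k w s rfl hkw (by omega) hkg hkh hmin q hq h2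
  obtain ⟨i, hi⟩ := cs.exists_leftDescent_of_ne_one hk1
  exact hpq i ⟨inv_mono cs hk_p hi, inv_mono cs hk_q hi⟩

/-- Edges of the restricted Bruhat graph. -/
def EL (u v x y : W) : Prop := ∃ r, cs.IsReflection r ∧ (cs.length (r * u) < cs.length u ∨ cs.length (r * v) < cs.length v) ∧
  y = r * x ∧ cs.length x < cs.length y

lemma path_of (u v j : W) (hu : R cs u j) (hv : R cs v j)
    (hj : ∀ w, R cs u w → R cs v w → R cs j w) :
    ∀ m, ∀ h, Br cs h j⁻¹ → cs.length (j⁻¹) = cs.length h + m → Relation.ReflTransGen (EL cs u v) 1 (j * h) := by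
  -- the elements `p`, `q`
  have hRp : ∀ u, R cs u j → R cs (j⁻¹ * u) j⁻¹ := by
    intro u hu
    unfold R at *
    have e1 : (j⁻¹ * u)⁻¹ * j⁻¹ = u⁻¹ := by group
    have e2 : (j⁻¹ * u)⁻¹ = u⁻¹ * j := by group
    rw [e1, cs.length_inv, cs.length_inv, ← cs.length_inv (j⁻¹ * u), e2]
    omega
  have hp := hRp u hu
  have hq := hRp v hv
  have hpq : ∀ i, ¬ (cs.length (cs.simple i * (j⁻¹ * u)) < cs.length (j⁻¹ * u) ∧
      cs.length (cs.simple i * (j⁻¹ * v)) < cs.length (j⁻¹ * v)) := by
    rintro i ⟨h1, h2⟩
    have h3 := inv_mono cs hp h1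
    have hl : cs.length (j * cs.simple i) + 1 = cs.length j := by
      have e : cs.simple i * j⁻¹ = (j * cs.simple i)⁻¹ := by rw [mul_inv_rev, cs.inv_simple]
      rw [e, cs.length_inv, cs.length_inv] at h3
      have := cs.length_mul_simple j i
      omega
    have hR : ∀ u, R cs u j → cs.length (cs.simple i * (j⁻¹ * u)) < cs.length (j⁻¹ * u) →
        R cs u (j * cs.simple i) := by
      intro u hu h1
      unfold R at *
      have e1 : u⁻¹ * (j * cs.simple i) = (cs.simple i * (j⁻¹ * u))⁻¹ := by
        rw [mul_inv_rev, mul_inv_rev, cs.inv_simple, inv_inv, mul_assoc]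
      have e2 : u⁻¹ * j = (j⁻¹ * u)⁻¹ := by group
      rw [e2, cs.length_inv] at hu
      rw [e1, cs.length_inv]
      have := cs.length_simple_mul (j⁻¹ * u) i
      omega
    have h4 := R_le cs (hj _ (hR u hu h1) (hR v hv h2))
    omega
  intro m
  induction m using Nat.strong_induction_on with
  | _ m ih =>
    intro h hb hm
    by_cases hne : h = j⁻¹
    · rw [hne, mul_inv_cancel]
    · obtain ⟨r, hr, hrg, hrn, hl, hb'⟩ := good_step cs j⁻¹ _ _ hp hq hpq h hb hne
      have hle := Br_le cs hb'
      have h1 := ih (cs.length j⁻¹ - cs.length (r * h)) (by omega) (r * h) hb' (by omega)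
      refine Relation.ReflTransGen.tail h1 ?_
      have hρ : cs.IsReflection (j * r * j⁻¹) := hr.conj j
      -- label facts
      have hρj : cs.length (j * r * j⁻¹ * j) < cs.length j := by
        have e : j * r * j⁻¹ * j = (r * j⁻¹)⁻¹ := by
          rw [mul_inv_rev, hr.inv]; group
        rw [e, cs.length_inv, ← cs.length_inv j]
        exact hrg
      have econj : j⁻¹ * (j * r * j⁻¹) * j = r := by group
      have hρu : ∀ u, (cs.length (j * r * j⁻¹ * u) < cs.length u ↔ ¬ cs.length (r * (j⁻¹ * u)) < cs.length (j⁻¹ * u)) := by
        intro u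
        have h2 := inv_mul_iff cs j (j⁻¹ * u) _ hρ
        rw [mul_inv_cancel_left, econj] at h2
        rw [h2]
        tauto
      refine ⟨j * r * j⁻¹, hρ, ?_, ?_, ?_⟩
      · rw [hρu u, hρu v]; tauto
      · calc j * h = j * (r * r) * h := by rw [hr.mul_self, mul_one]
          _ = j * r * j⁻¹ * (j * (r * h)) := by group
      · have h2 := inv_mul_iff cs j h _ hρ
        rw [econj] at h2
        have h3 : cs.length (j * r * j⁻¹ * (j * h)) < cs.length (j * h) := by
          rw [h2]
          intro hiff
          have := hiff.mp hρj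
          omega
        have e : j * r * j⁻¹ * (j * h) = j * (r * h) := by group
        rwa [e] at h3

lemma exists_seq {α : Type*} {P : α → α → Prop} {a b : α} (h : Relation.ReflTransGen P a b) :
    ∃ (n : ℕ) (f : ℕ → α), f 0 = a ∧ f n = b ∧ ∀ i, i < n → P (f i) (f (i + 1)) := by
  classical
  induction h with
  | refl => exact ⟨0, fun _ => a, rfl, rfl, fun i hi => absurd hi (Nat.not_lt_zero i)⟩
  | @tail b c hab hbc ih =>
    obtain ⟨n, f, h0, hn, hf⟩ := ih
    refine ⟨n + 1, fun i => if i ≤ n then f i else c, by simpa using h0, by simp, ?_⟩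
    intro i hi
    by_cases hin : i < n
    · have h1 : i ≤ n := hin.le
      have h2 : i + 1 ≤ n := hin
      simp only [h1, h2, if_true]
      exact hf i hin
    · have h1 : i = n := by omega
      subst h1
      simp only [le_refl, if_true, Nat.not_succ_le_self, if_false]
      rw [hn]; exact hbc

/-- **Dyer's conjecture on weak order joins** (for every Coxeter system in which the join
exists). -/
theorem dyer_join (u v j : W) (hu : R cs u j) (hv : R cs v j)
    (hj : ∀ w, R cs u w → R cs v w → R cs j w) (t : W) (ht : cs.IsReflection t) :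
    cs.length (t * j) < cs.length j ↔ ∃ (n : ℕ) (f : ℕ → W), f 0 = 1 ∧ f n = t ∧
      ∀ i, i < n → EL cs u v (f i) (f (i + 1)) := by
  constructor
  · intro h
    apply exists_seq
    -- `h₀ = j⁻¹ t`
    have hl : cs.length (j⁻¹ * t) < cs.length j⁻¹ := by
      have e : j⁻¹ * t = (t * j)⁻¹ := by rw [mul_inv_rev, ht.inv]
      rw [e, cs.length_inv, cs.length_inv]; exact h
    have hb : Br cs (j⁻¹ * t) j⁻¹ := by
      apply Relation.ReflTransGen.single
      refine ⟨j⁻¹ * t * j, ?_, ?_, hl⟩
      · have := ht.conj j⁻¹
        rwa [inv_inv] at this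
      · calc j⁻¹ = j⁻¹ * (t * t) := by rw [ht.mul_self, mul_one]
          _ = j⁻¹ * t * j * (j⁻¹ * t) := by group
    have := path_of cs u v j hu hv hj (cs.length j⁻¹ - cs.length (j⁻¹ * t)) (j⁻¹ * t) hb (by omega)
    rwa [mul_inv_cancel_left] at this
  · rintro ⟨n, f, h0, hn, hf⟩
    have hlab : ∀ i, i ≤ n → cs.length ((f i)⁻¹ * j) + i ≤ cs.length j := by
      intro i
      induction i with
      | zero => intro _; rw [h0]; simp
      | succ i ih =>
        intro hi
        have h1 := ih (by omega)
        obtain ⟨r, hr, hruv, hfr, hl⟩ := hf i (by omega)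
        have hrj : cs.length (r * j) < cs.length j := by
          rcases hruv with h | h
          · exact inv_mono cs hu h
          · exact inv_mono cs hv h
        have hρ : cs.IsReflection ((f i)⁻¹ * r * f i) := by
          have := hr.conj (f i)⁻¹
          rwa [inv_inv] at this
        have h2 := inv_mul_iff cs (f i)⁻¹ j _ hρ
        have e1 : (f i)⁻¹⁻¹ * ((f i)⁻¹ * r * f i) * (f i)⁻¹ = r := by group
        have e2 : (f i)⁻¹ * r * f i * ((f i)⁻¹ * j) = (f (i + 1))⁻¹ * j := by
          rw [hfr, mul_inv_rev, hr.inv]; group
        have e3 : (f i)⁻¹ * r * f i * (f i)⁻¹ = (f (i + 1))⁻¹ := by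
          rw [hfr, mul_inv_rev, hr.inv]; group
        rw [e1, e2, e3, cs.length_inv, cs.length_inv] at h2
        have h3 : cs.length ((f (i + 1))⁻¹ * j) < cs.length ((f i)⁻¹ * j) := by
          rw [h2]
          intro hiff
          have := hiff.mpr hrj
          omega
        omega
    have h1 := hlab n le_rfl
    rw [hn, ht.inv] at h1
    have h2 : n ≠ 0 := by
      intro hn0
      rw [hn0, h0] at hn
      have := ht.odd_length
      rw [← hn, cs.length_one] at this
      exact absurd this (by decide)
    omega

end Pool.Agent.W838.Cox
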