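import Mathlib

set_option autoImplicit false

/-!
The mod 2 inversion cocycle of a Coxeter system and the resulting description of the left
inversions of a product.
-/

namespace Pool.Agent.W838.Cox

/-- Pairs `(v, w)` with `v : W → ZMod 2`. -/
@[ext] structure TE (W : Type*) [Group W] where
  v : W → ZMod 2
  w : W

namespace TE
variable {W : Type*} [Group W]

instance : Mul (TE W) := ⟨fun x y => ⟨fun r => x.v r + y.v (x.w⁻¹ * r * x.w), x.w * y.w⟩⟩
instance : One (TE W) := ⟨⟨fun _ => 0, 1⟩⟩
instance : Inv (TE W) := ⟨fun x => ⟨fun r => - x.v (x.w * r * x.w⁻¹), x.w⁻¹⟩⟩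

lemma mul_v (x y : TE W) (r : W) : (x * y).v r = x.v r + y.v (x.w⁻¹ * r * x.w) := rfl
@[simp] lemma mul_w (x y : TE W) : (x * y).w = x.w * y.w := rfl
@[simp] lemma one_v (r : W) : (1 : TE W).v r = 0 := rfl
@[simp] lemma one_w : (1 : TE W).w = 1 := rfl
lemma inv_v (x : TE W) (r : W) : (x⁻¹).v r = - x.v (x.w * r * x.w⁻¹) := rfl
@[simp] lemma inv_w (x : TE W) : (x⁻¹).w = x.w⁻¹ := rfl

instance : Group (TE W) :=
  Group.ofLeftAxioms
    (by
      intro x y z
      ext r
      · simp only [mul_v, mul_w, mul_inv_rev, add_assoc, mul_assoc]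
      · simp only [mul_w, mul_assoc])
    (by
      intro x
      ext r
      · simp [mul_v]
      · simp)
    (by
      intro x
      ext r
      · rw [mul_v, inv_v, inv_w, inv_inv, neg_add_cancel]; rfl
      · simp)

/-- projection to `W` -/
def toW : TE W →* W where
  toFun x := x.w
  map_one' := rfl
  map_mul' _ _ := rfl

@[simp] lemma toW_apply (x : TE W) : toW x = x.w := rfl

lemma pow_w (x : TE W) (k : ℕ) : (x ^ k).w = x.w ^ k := by
  have := map_pow (toW (W := W)) x k
  simpa using this

open Classical in
/-- The element `(δ_s, s)`. -/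
noncomputable def el (s : W) : TE W := ⟨fun r => if r = s then 1 else 0, s⟩

open Classical in
lemma el_v (s r : W) : (el s).v r = if r = s then 1 else 0 := rfl
@[simp] lemma el_w (s : W) : (el s).w = s := rfl

open Classical in
lemma pow_el_v {a b : W} (ha : a * a = 1) (hb : b * b = 1) (k : ℕ) (r : W) :
    ((el a * el b) ^ k).v r =
      ∑ t ∈ Finset.range (2 * k), (if r = (a * b) ^ t * a then (1 : ZMod 2) else 0) := by
  have ha' : a⁻¹ = a := inv_eq_of_mul_eq_one_left ha
  have hb' : b⁻¹ = b := inv_eq_of_mul_eq_one_left hb
  induction k generalizing r with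
  | zero => simp
  | succ k ih =>
    have h1 : 2 * (k + 1) = 2 * k + 1 + 1 := by ring
    rw [pow_succ', mul_assoc, mul_v, mul_v, ih, h1, Finset.sum_range_succ', Finset.sum_range_succ',
      el_v, el_v, add_comm]
    simp only [el_w, ha', hb', pow_zero, one_mul, zero_add, pow_one]
    congr 1
    rw [add_comm]
    congr 1
    · apply Finset.sum_congr rfl
      intro t _
      apply if_congr _ rfl rfl
      have hc : (a * b) ^ t * (a * b) = (a * b) * (a * b) ^ t := by
        rw [← pow_succ, ← pow_succ']
      rw [pow_succ', pow_succ']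
      have e1 : a * b * (a * b * (a * b) ^ t) * a = a * (b * ((a * b) ^ t * a) * b) * a := by
        rw [← hc]; simp only [mul_assoc]
      rw [e1]
      constructor
      · intro h
        rw [← h]
        calc r = (a * a) * r * (a * a) := by rw [ha]; group
          _ = a * ((b * b) * (a * r * a) * (b * b)) * a := by
            rw [hb]; simp only [mul_assoc, one_mul, mul_one]
          _ = _ := by simp only [mul_assoc]
      · intro h
        rw [h]
        calc b * (a * (a * (b * ((a * b) ^ t * a) * b) * a) * a) * b
            = b * ((a * a) * (b * ((a * b) ^ t * a) * b) * (a * a)) * b := by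
              simp only [mul_assoc]
          _ = (b * b) * ((a * b) ^ t * a) * (b * b) := by
            rw [ha, one_mul, mul_one]; simp only [mul_assoc]
          _ = _ := by rw [hb, one_mul, mul_one]
    · apply if_congr _ rfl rfl
      constructor
      · intro h
        rw [← h]
        calc r = (a * a) * r * (a * a) := by rw [ha]; group
          _ = _ := by simp only [mul_assoc]
      · intro h
        rw [h]
        calc a * (a * b * a) * a = (a * a) * b * (a * a) := by simp only [mul_assoc]
          _ = _ := by rw [ha]; group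

end TE

open CoxeterSystem TE

variable {B : Type*} {M : CoxeterMatrix B} {W : Type*} [Group W] (cs : CoxeterSystem M W)

lemma liftable_el : M.IsLiftable (fun i => (el (cs.simple i) : TE W)) := by
  classical
  intro i j
  apply TE.ext
  · funext r
    rw [pow_el_v (cs.simple_mul_simple_self i) (cs.simple_mul_simple_self j), two_mul,
      Finset.sum_range_add]
    have h : ∀ t, (cs.simple i * cs.simple j) ^ (M i j + t) = (cs.simple i * cs.simple j) ^ t := by
      intro t
      rw [pow_add, cs.simple_mul_simple_pow, one_mul]
    simp only [h]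
    rw [← two_nsmul, nsmul_eq_mul]
    have : ((2 : ℕ) : ZMod 2) = 0 := rfl
    rw [this, zero_mul, one_v]
  · rw [pow_w, mul_w, el_w, el_w, cs.simple_mul_simple_pow, one_w]

/-- The mod 2 inversion cocycle. -/
noncomputable def invc : W →* TE W :=
  cs.lift ⟨fun i => el (cs.simple i), liftable_el cs⟩

@[simp] lemma invc_simple (i : B) : invc cs (cs.simple i) = el (cs.simple i) :=
  cs.lift_apply_simple (liftable_el cs) i

@[simp] lemma invc_w (w : W) : (invc cs w).w = w := by
  have : (TE.toW).comp (invc cs) = MonoidHom.id W := by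
    apply cs.ext_simple
    intro i
    simp
  exact DFunLike.congr_fun this w

/-- The parity of the number of occurrences of `t` as a left inversion of `w`. -/
noncomputable def par (w t : W) : ZMod 2 := (invc cs w).v t

lemma par_one (t : W) : par cs 1 t = 0 := by
  unfold par; rw [map_one]; rfl

lemma par_mul (a b t : W) : par cs (a * b) t = par cs a t + par cs b (a⁻¹ * t * a) := by
  unfold par; rw [map_mul, mul_v, invc_w]

lemma par_simple_self (i : B) : par cs (cs.simple i) (cs.simple i) = 1 := by
  classical
  unfold par; rw [invc_simple, el_v, if_pos rfl]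

lemma par_simple_ne (i : B) (t : W) (h : t ≠ cs.simple i) : par cs (cs.simple i) t = 0 := by
  classical
  unfold par; rw [invc_simple, el_v, if_neg h]

lemma zmod2_cases (x : ZMod 2) : x = 0 ∨ x = 1 := by
  fin_cases x
  · left; rfl
  · right; rfl

lemma zmod2_add_self (x : ZMod 2) : x + x = 0 := by
  rcases zmod2_cases x with rfl | rfl <;> rfl

lemma mem_leftInvSeq_of_par (ω : List B) (t : W) (h : par cs (cs.wordProd ω) t ≠ 0) :
    t ∈ cs.leftInvSeq ω := by
  induction ω generalizing t with
  | nil => rw [cs.wordProd_nil, par_one] at h; exact absurd rfl h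
  | cons i ω ih =>
    rw [cs.wordProd_cons, par_mul] at h
    rw [leftInvSeq, List.mem_cons]
    by_cases h1 : t = cs.simple i
    · left; exact h1
    · right
      rw [par_simple_ne cs i t h1, zero_add] at h
      rw [List.mem_map]
      refine ⟨_, ih _ h, ?_⟩
      simp only [MulAut.conj_apply]
      group

lemma par_ne_zero_lt (w t : W) (h : par cs w t ≠ 0) : cs.length (t * w) < cs.length w := by
  obtain ⟨ω, hred, hω⟩ := cs.exists_isReduced w
  rw [hω] at h ⊢
  exact (cs.isLeftInversion_of_mem_leftInvSeq hred (mem_leftInvSeq_of_par cs ω t h)).2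

lemma par_refl_self (t : W) (ht : cs.IsReflection t) : par cs t t = 1 := by
  obtain ⟨w, i, rfl⟩ := ht
  have h1 : par cs w⁻¹ (cs.simple i) = par cs w (w * cs.simple i * w⁻¹) := by
    have := par_mul cs w w⁻¹ (w * cs.simple i * w⁻¹)
    rw [mul_inv_cancel, par_one] at this
    have e : w⁻¹ * (w * cs.simple i * w⁻¹) * w = cs.simple i := by group
    rw [e] at this
    have h2 := congrArg (fun x => par cs w (w * cs.simple i * w⁻¹) + x) this
    simp only [add_zero] at h2
    rw [← add_assoc, zmod2_add_self, zero_add] at h2
    exact h2.symm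
  have e1 : w⁻¹ * (w * cs.simple i * w⁻¹) * w = cs.simple i := by group
  have e2 : (w * cs.simple i)⁻¹ * (w * cs.simple i * w⁻¹) * (w * cs.simple i) = cs.simple i := by
    group
  rw [par_mul cs (w * cs.simple i) w⁻¹, e2, par_mul cs w (cs.simple i), e1, h1,
    par_simple_self, add_assoc, add_comm (1 : ZMod 2), ← add_assoc, zmod2_add_self, zero_add]

/-- `par` detects left inversions. -/
lemma par_eq_one_iff (w t : W) (ht : cs.IsReflection t) :
    par cs w t = 1 ↔ cs.length (t * w) < cs.length w := by
  constructor
  · intro h
    apply par_ne_zero_lt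
    rw [h]; exact one_ne_zero
  · intro h
    rcases zmod2_cases (par cs w t) with h0 | h1
    · exfalso
      have h2 : par cs (t * w) t = 1 := by
        rw [par_mul, par_refl_self cs t ht]
        have : t⁻¹ * t * t = t := by group
        rw [this, h0, add_zero]
      have h3 := par_ne_zero_lt cs (t * w) t (by rw [h2]; exact one_ne_zero)
      rw [← mul_assoc, ht.mul_self, one_mul] at h3
      omega
    · exact h1

/-- Left inversions of a product. -/
theorem inv_mul_iff (a b t : W) (ht : cs.IsReflection t) :
    cs.length (t * (a * b)) < cs.length (a * b) ↔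
      ¬ (cs.length (t * a) < cs.length a ↔ cs.length (a⁻¹ * t * a * b) < cs.length b) := by
  have ht' : cs.IsReflection (a⁻¹ * t * a) := by
    have := ht.conj a⁻¹
    rwa [inv_inv] at this
  rw [← par_eq_one_iff cs _ _ ht, ← par_eq_one_iff cs _ _ ht, ← par_eq_one_iff cs _ _ ht',
    par_mul]
  rcases zmod2_cases (par cs a t) with h1 | h1 <;>
  rcases zmod2_cases (par cs b (a⁻¹ * t * a)) with h2 | h2 <;> rw [h1, h2] <;> decide

end Pool.Agent.W838.Cox
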