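import Pool.Agent.W838.CoxCocycle

set_option autoImplicit false

/-!
Weak order and Bruhat order facts, and Dyer's description of the left reflection set of a join.
-/

namespace Pool.Agent.W838.Cox

open CoxeterSystem

variable {B : Type*} {M : CoxeterMatrix B} {W : Type*} [Group W] (cs : CoxeterSystem M W)


/-- Right weak order. -/
def R (u w : W) : Prop := cs.length u + cs.length (u⁻¹ * w) = cs.length w

lemma R_refl (u : W) : R cs u u := by simp [R]

lemma R_one (u : W) : R cs 1 u := by simp [R]

lemma R_le {u w : W} (h : R cs u w) : cs.length u ≤ cs.length w := by unfold R at h; omega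

lemma R_trans {a b c : W} (h1 : R cs a b) (h2 : R cs b c) : R cs a c := by
  unfold R at *
  have h3 : cs.length (a⁻¹ * c) ≤ cs.length (a⁻¹ * b) + cs.length (b⁻¹ * c) := by
    have := cs.length_mul_le (a⁻¹ * b) (b⁻¹ * c)
    have e : a⁻¹ * b * (b⁻¹ * c) = a⁻¹ * c := by group
    rwa [e] at this
  have h4 : cs.length c ≤ cs.length a + cs.length (a⁻¹ * c) := by
    have := cs.length_mul_le a (a⁻¹ * c)
    have e : a * (a⁻¹ * c) = c := by group
    rwa [e] at this
  omega

/-- Inversions are inherited upwards. -/
lemma inv_mono {a b : W} (h : R cs a b) {t : W} (ht : cs.length (t * a) < cs.length a) : cs.length (t * b) < cs.length b := by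
  unfold R at h
  have := cs.length_mul_le (t * a) (a⁻¹ * b)
  have e : t * a * (a⁻¹ * b) = t * b := by group
  rw [e] at this
  omega

lemma R_simple {i : B} {w : W} (h : cs.length (cs.simple i * w) < cs.length w) : R cs (cs.simple i) w := by
  unfold R
  rw [cs.inv_simple, cs.length_simple]
  have := cs.length_simple_mul w i
  omega

lemma lt_of_R_simple {i : B} {w : W} (h : R cs (cs.simple i) w) : cs.length (cs.simple i * w) < cs.length w := by
  unfold R at h
  rw [cs.inv_simple, cs.length_simple] at h
  omega

/-- Stripping a common left descent. -/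
lemma R_strip {i : B} {k x : W} (hk : cs.length (cs.simple i * k) < cs.length k) (hx : cs.length (cs.simple i * x) < cs.length x) :
    R cs (cs.simple i * k) (cs.simple i * x) ↔ R cs k x := by
  unfold R
  have h1 := cs.length_simple_mul k i
  have h2 := cs.length_simple_mul x i
  have e : (cs.simple i * k)⁻¹ * (cs.simple i * x) = k⁻¹ * x := by
    rw [mul_inv_rev, cs.inv_simple, mul_assoc, cs.simple_mul_simple_cancel_left]
  rw [e]
  omega

/-- If `s` is a left descent of `z` but not of `k ≤ z` then `s k ≤ z`. -/
lemma R_up {i : B} {k z : W} (hkz : R cs k z) (hz : cs.length (cs.simple i * z) < cs.length z)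
    (hk : ¬ cs.length (cs.simple i * k) < cs.length k) :
    R cs k (cs.simple i * z) ∧ R cs (cs.simple i * k) z := by
  have h0 := inv_mul_iff cs k (k⁻¹ * z) (cs.simple i) (cs.isReflection_simple i)
  have e : k * (k⁻¹ * z) = z := by group
  rw [e] at h0
  have h1 : cs.length (k⁻¹ * cs.simple i * k * (k⁻¹ * z)) < cs.length (k⁻¹ * z) := by
    by_contra hc
    exact (h0.mp hz) ⟨fun h => absurd h hk, fun h => absurd h hc⟩
  have e2 : k⁻¹ * cs.simple i * k * (k⁻¹ * z) = k⁻¹ * (cs.simple i * z) := by group
  rw [e2] at h1
  have h2 := cs.length_simple_mul z i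
  have h3 := cs.length_simple_mul k i
  have h4 := cs.length_mul_le k (k⁻¹ * (cs.simple i * z))
  have e3 : k * (k⁻¹ * (cs.simple i * z)) = cs.simple i * z := by group
  rw [e3] at h4
  have e4 : (cs.simple i * k)⁻¹ * z = k⁻¹ * (cs.simple i * z) := by
    rw [mul_inv_rev, cs.inv_simple, mul_assoc]
  unfold R at *
  rw [e4]
  omega

/-- Going up by one step below `g`. -/
lemma R_cover {x g : W} (h : R cs x g) (hne : x ≠ g) :
    ∃ c : B, cs.length (x * cs.simple c) = cs.length x + 1 ∧ R cs (x * cs.simple c) g := by
  have hy : x⁻¹ * g ≠ 1 := by
    intro h1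
    apply hne
    rw [inv_mul_eq_one] at h1
    exact h1
  obtain ⟨c, hc⟩ := cs.exists_leftDescent_of_ne_one hy
  refine ⟨c, ?_⟩
  have h1 := cs.length_simple_mul (x⁻¹ * g) c
  have h2 := cs.length_mul_simple x c
  have hc' : cs.length (cs.simple c * (x⁻¹ * g)) < cs.length (x⁻¹ * g) := hc
  have e : (x * cs.simple c)⁻¹ * g = cs.simple c * (x⁻¹ * g) := by
    rw [mul_inv_rev, cs.inv_simple, mul_assoc]
  have h3 := cs.length_mul_le (x * cs.simple c) (cs.simple c * (x⁻¹ * g))
  have e2 : x * cs.simple c * (cs.simple c * (x⁻¹ * g)) = g := by
    rw [mul_assoc, cs.simple_mul_simple_cancel_left]; group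
  rw [e2] at h3
  unfold R at *
  rw [e]
  omega

/-- A simple reflection in `N(x c) \ N(x)`. -/
lemma cover_simple {i c : B} {x : W} (h1 : ¬ cs.length (cs.simple i * x) < cs.length x)
    (h2 : cs.length (cs.simple i * (x * cs.simple c)) < cs.length (x * cs.simple c)) :
    cs.simple i * x = x * cs.simple c := by
  have h0 := inv_mul_iff cs x (cs.simple c) (cs.simple i) (cs.isReflection_simple i)
  have h3 : cs.length (x⁻¹ * cs.simple i * x * cs.simple c) < cs.length (cs.simple c) := by
    by_contra hc
    exact (h0.mp h2) ⟨fun h => absurd h h1, fun h => absurd h hc⟩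
  rw [cs.length_simple] at h3
  have h4 : x⁻¹ * cs.simple i * x * cs.simple c = 1 := by
    rw [← cs.length_eq_zero_iff]; omega
  calc cs.simple i * x = x * (x⁻¹ * cs.simple i * x * cs.simple c) * cs.simple c := by
        rw [mul_assoc x, mul_assoc _ (cs.simple c), cs.simple_mul_simple_self]; group
    _ = x * cs.simple c := by rw [h4, mul_one]

/-- Conjugating by a simple reflection which is different. -/
lemma inv_conj_simple {i : B} {x b : W} (hb : cs.IsReflection b) (hne : b ≠ cs.simple i) :
    cs.length (cs.simple i * b * cs.simple i * (cs.simple i * x)) < cs.length (cs.simple i * x) ↔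
      cs.length (b * x) < cs.length x := by
  have hr : cs.IsReflection (cs.simple i * b * cs.simple i) := by
    have := hb.conj (cs.simple i)
    rwa [cs.inv_simple] at this
  rw [inv_mul_iff cs (cs.simple i) x _ hr]
  have e1 : (cs.simple i)⁻¹ * (cs.simple i * b * cs.simple i) * cs.simple i = b := by
    rw [cs.inv_simple]
    calc cs.simple i * (cs.simple i * b * cs.simple i) * cs.simple i
        = (cs.simple i * cs.simple i) * b * (cs.simple i * cs.simple i) := by
          simp only [mul_assoc]
      _ = b := by rw [cs.simple_mul_simple_self]; group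
  rw [e1]
  have h1 : ¬ cs.length (cs.simple i * b * cs.simple i * cs.simple i) < cs.length (cs.simple i) := by
    intro h
    rw [cs.length_simple] at h
    have h4 : cs.simple i * b * cs.simple i * cs.simple i = 1 := by
      rw [← cs.length_eq_zero_iff]; omega
    rw [mul_assoc _ (cs.simple i), cs.simple_mul_simple_self, mul_one] at h4
    apply hne
    calc b = (cs.simple i * cs.simple i) * b := by rw [cs.simple_mul_simple_self, one_mul]
      _ = cs.simple i * (cs.simple i * b) := by rw [mul_assoc]
      _ = cs.simple i := by rw [h4, mul_one]
  tauto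

/-- Uniqueness: a minimal exit from `h` below `g` is below every `x ≤ g` having its label as an
inversion. -/
theorem unique_exit (n : ℕ) : ∀ (g h k w : W) (s : B), cs.length k = n → k = w * cs.simple s →
    cs.length k = cs.length w + 1 → R cs k g → ¬ R cs k h → (∀ y, R cs y g → cs.length y < cs.length k → R cs y h) →
    ∀ x, R cs x g → cs.length (w * cs.simple s * w⁻¹ * x) < cs.length x → R cs k x := by
  induction n with
  | zero =>
    intro g h k w s hn _ hk
    omega
  | succ n ih =>
    intro g h k w s hn hkw hkl hkg hkh hmin
    have hb : cs.IsReflection (w * cs.simple s * w⁻¹) := ⟨w, s, rfl⟩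
    set b := w * cs.simple s * w⁻¹ with hbdef
    by_cases hw1 : w = 1
    · intro x _ hbx
      have hbs : b = cs.simple s := by rw [hbdef, hw1]; group
      rw [hbs] at hbx
      rw [hkw, hw1, one_mul]
      exact R_simple cs hbx
    have hlw : 0 < cs.length w := by
      rw [Nat.pos_iff_ne_zero]
      intro h0
      exact hw1 (cs.length_eq_zero_iff.mp h0)
    -- `w ≤ k`
    have hwk : R cs w k := by
      unfold R
      have e : w⁻¹ * k = cs.simple s := by rw [hkw]; group
      rw [e, cs.length_simple]; omega
    have hwg : R cs w g := R_trans cs hwk hkg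
    have hwh : R cs w h := hmin w hwg (by omega)
    -- `b` is not an inversion of `w`
    have hbw : ¬ cs.length (b * w) < cs.length w := by
      have e : b * w = k := by rw [hbdef, hkw]; group
      rw [e]; omega
    have hbk : cs.length (b * k) < cs.length k := by
      have e : b * k = w := by
        rw [hbdef, hkw]
        calc w * cs.simple s * w⁻¹ * (w * cs.simple s)
            = w * (cs.simple s * cs.simple s) := by group
          _ = w := by rw [cs.simple_mul_simple_self, mul_one]
      rw [e]; omega
    -- facts on left descents of `k`
    have hdesc : ∀ i : B, cs.length (cs.simple i * k) < cs.length k →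
        cs.length (cs.simple i * g) < cs.length g ∧ cs.length (cs.simple i * h) < cs.length h ∧ cs.length (cs.simple i * w) < cs.length w := by
      intro i hi
      have hg := inv_mono cs hkg hi
      have hh : cs.length (cs.simple i * h) < cs.length h :=
        lt_of_R_simple cs (hmin _ (R_simple cs hg) (by rw [cs.length_simple]; omega))
      refine ⟨hg, hh, ?_⟩
      by_contra hcon
      have h1 : cs.simple i * w = w * cs.simple s := by
        apply cover_simple cs hcon
        rw [← hkw]; exact hi
      have h2 := (R_up cs hwh hh hcon).2
      rw [h1, ← hkw] at h2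
      exact hkh h2
    -- stripping
    have hstrip : ∀ i : B, cs.length (cs.simple i * k) < cs.length k → ∀ x, R cs x g → cs.length (b * x) < cs.length x →
        cs.length (cs.simple i * x) < cs.length x → R cs k x := by
      intro i hi x hxg hbx hix
      obtain ⟨hg, hh, hw⟩ := hdesc i hi
      have hne : b ≠ cs.simple i := by
        intro heq
        rw [heq] at hbw
        exact hbw hw
      rw [← R_strip cs hi hix]
      have l1 := cs.length_simple_mul k i
      have l2 := cs.length_simple_mul w i
      refine ih (cs.simple i * g) (cs.simple i * h) (cs.simple i * k) (cs.simple i * w) s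
        (by omega) (by rw [hkw, mul_assoc]) (by omega) ((R_strip cs hi hg).mpr hkg)
        (fun hc => hkh ((R_strip cs hi hh).mp hc)) ?_ (cs.simple i * x)
        ((R_strip cs hix hg).mpr hxg) ?_
      · intro y hy hyl
        have hgs : ¬ cs.length (cs.simple i * (cs.simple i * g)) < cs.length (cs.simple i * g) := by
          rw [cs.simple_mul_simple_cancel_left]; omega
        have hys : ¬ cs.length (cs.simple i * y) < cs.length y := fun hc => hgs (inv_mono cs hy hc)
        have l3 := cs.length_simple_mul y i
        have hsy : cs.length (cs.simple i * (cs.simple i * y)) < cs.length (cs.simple i * y) := by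
          rw [cs.simple_mul_simple_cancel_left]; omega
        have h1 : R cs (cs.simple i * y) g := by
          rw [← R_strip cs hsy hg, cs.simple_mul_simple_cancel_left]; exact hy
        have h2 := hmin _ h1 (by omega)
        rw [← R_strip cs hsy hh, cs.simple_mul_simple_cancel_left] at h2
        exact h2
      · have e : cs.simple i * w * cs.simple s * (cs.simple i * w)⁻¹ =
            cs.simple i * b * cs.simple i := by
          rw [hbdef, mul_inv_rev, cs.inv_simple]; simp only [mul_assoc]
        rw [e, inv_conj_simple cs hb hne]
        exact hbx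
    -- main argument
    have hk1 : k ≠ 1 := by
      intro h1
      rw [h1, cs.length_one] at hkl
      omega
    obtain ⟨i, hi⟩ := cs.exists_leftDescent_of_ne_one hk1
    have hi' : cs.length (cs.simple i * k) < cs.length k := hi
    obtain ⟨hg, hh, hw⟩ := hdesc i hi'
    suffices H : ∀ m, ∀ x, R cs x g → cs.length (b * x) < cs.length x → cs.length g = cs.length x + m → R cs k x by
      intro x hx hbx
      have := R_le cs hx
      exact H (cs.length g - cs.length x) x hx hbx (by omega)
    intro m
    induction m with
    | zero =>
      intro x hx _ hm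
      have hxg : x = g := by
        unfold R at hx
        have : cs.length (x⁻¹ * g) = 0 := by omega
        rw [cs.length_eq_zero_iff, inv_mul_eq_one] at this
        exact this
      rw [hxg]; exact hkg
    | succ m ihm =>
      intro x hx hbx hm
      by_cases hix : cs.length (cs.simple i * x) < cs.length x
      · exact hstrip i hi' x hx hbx hix
      · exfalso
        have hxg : x ≠ g := by
          intro h1
          rw [h1] at hm; omega
        obtain ⟨c, hc1, hc2⟩ := R_cover cs hx hxg
        have hxc : R cs x (x * cs.simple c) := by
          unfold R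
          have e : x⁻¹ * (x * cs.simple c) = cs.simple c := by group
          rw [e, cs.length_simple]; omega
        have hky := ihm (x * cs.simple c) hc2 (inv_mono cs hxc hbx) (by omega)
        have hiy := inv_mono cs hky hi'
        have heq := cover_simple cs hix hiy
        have h1 : R cs (cs.simple i * k) x := by
          have := (R_strip cs hi' hiy).mpr hky
          rwa [← heq, cs.simple_mul_simple_cancel_left] at this
        have h2 := hmin _ (R_trans cs h1 hx) hi'
        have h3 : ¬ cs.length (cs.simple i * (cs.simple i * k)) < cs.length (cs.simple i * k) := by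
          rw [cs.simple_mul_simple_cancel_left]; omega
        have h4 := (R_up cs h2 hh h3).2
        rw [cs.simple_mul_simple_cancel_left] at h4
        exact hkh h4

end Pool.Agent.W838.Cox
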